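import Mathlib
import Pool.Agent.Y203.QC.Mach
import Pool.Agent.Y350.QC.XReg
import Pool.Agent.Y389.QC.XMove

set_option autoImplicit false

open Set Filter Topology

namespace Pool.Agent.Y203.QC

open Pool.Agent.Aub (mm lam Stk dt stp Sc S1 S2 Qx gT gt cT ct hC hX Dg Ty stg rho mu posn peel cE cF
  DD rb subTy subP subC sub broken Clamp Ix Zs stk reg mkz Wt f0 f1 f4 f6 g0 g1 M0 M4 M6 N1 tyj pj)

/-! auxiliary lemmas -/

theorem X04_hh (hi : ℝ) (c : Clamp hi) (t : ℝ) :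
    max (-1/4) (min hi (c.Φ 1 t)) = max (-1/4) (min hi t) := by
  rcases le_total t (-1/4) with h | h
  · have h1 := c.lo t h
    rw [max_eq_left (le_trans (min_le_right _ _) h1), max_eq_left (le_trans (min_le_right _ _) h)]
  · rcases le_total t hi with h' | h'
    · rw [c.fix 1 t h h']
    · have h1 := c.up t h'
      rw [min_eq_left h1, min_eq_left h']

theorem X04_hC (cc : Clamp (5/4)) (t : ℝ) : hC (cc.Φ 1 t) = hC t := X04_hh _ cc t

theorem X04_hX (cx : Clamp (mm + 1/2)) (t : ℝ) : hX (cx.Φ 1 t) = hX t := X04_hh _ cx t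

theorem X04_Dg (cx : Clamp (mm + 1/2)) (μ t : ℝ) : Dg μ (cx.Φ 1 t) = Dg μ t := by
  unfold Dg
  rw [X04_hX]

theorem X04_le (θ t : ℝ) (h0 : -1/4 ≤ θ) (h1 : θ < 5/4) : hC t ≤ θ ↔ t ≤ θ := by
  unfold hC
  rw [max_le_iff, min_le_iff]
  constructor
  · rintro ⟨_, h | h⟩
    · exact absurd h (not_le.mpr h1)
    · exact h
  · intro h
    exact ⟨h0, Or.inr h⟩

theorem X04_ge (θ t : ℝ) (h0 : -1/4 < θ) (h1 : θ ≤ 5/4) : θ ≤ hC t ↔ θ ≤ t := by
  unfold hC
  rw [le_max_iff, le_min_iff]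
  constructor
  · rintro (h | ⟨_, h⟩)
    · exact absurd h (not_le.mpr h0)
    · exact h
  · intro h
    exact Or.inr ⟨h1, h⟩

theorem X04_Cle (cc : Clamp (5/4)) (θ t : ℝ) (h0 : -1/4 ≤ θ) (h1 : θ < 5/4) :
    cc.Φ 1 t ≤ θ ↔ t ≤ θ := by
  rw [← X04_le θ _ h0 h1, X04_hC, X04_le θ _ h0 h1]

theorem X04_Cge (cc : Clamp (5/4)) (θ t : ℝ) (h0 : -1/4 < θ) (h1 : θ ≤ 5/4) :
    θ ≤ cc.Φ 1 t ↔ θ ≤ t := by
  rw [← X04_ge θ _ h0 h1, X04_hC, X04_ge θ _ h0 h1]

/-- the clamp on stacks -/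
noncomputable def X04_cl (cc : Clamp (5/4)) (cx : Clamp (mm + 1/2)) (s d : Fin 3) (S : Stk) :
    Stk := fun i tr => if i = s ∨ i = d then
    (if tr.1 < 2 then cc.Φ 1 (S i tr) else cx.Φ 1 (S i tr)) else S i tr

theorem X04_M0 (cc : Clamp (5/4)) (cx : Clamp (mm + 1/2)) (s d : Fin 3) (z : Zs) :
    stk (M0 cc cx s d z) = X04_cl cc cx s d (stk z) := rfl

theorem X04_cl_comm (cc : Clamp (5/4)) (cx : Clamp (mm + 1/2)) (s d : Fin 3) (S : Stk) :
    X04_cl cc cx s d S = X04_cl cc cx d s S := by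
  funext i tr
  unfold X04_cl
  simp only [or_comm]

theorem X04_cl_s (cc : Clamp (5/4)) (cx : Clamp (mm + 1/2)) (s d : Fin 3) (S : Stk) (tr : Fin 5) :
    X04_cl cc cx s d S s tr = if tr.1 < 2 then cc.Φ 1 (S s tr) else cx.Φ 1 (S s tr) := by
  unfold X04_cl
  simp

theorem X04_cl_d (cc : Clamp (5/4)) (cx : Clamp (mm + 1/2)) (s d : Fin 3) (S : Stk) (tr : Fin 5) :
    X04_cl cc cx s d S d tr = if tr.1 < 2 then cc.Φ 1 (S d tr) else cx.Φ 1 (S d tr) := by
  unfold X04_cl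
  simp

theorem X04_dt (k : Fin 3) : ¬ ((dt k).1 < 2) := by
  unfold dt
  simp

theorem X04_dt0 : dt 0 = 2 := rfl

section post

variable (cc : Clamp (5/4)) (cx : Clamp (mm + 1/2)) (s d : Fin 3) (z z' : Stk)

theorem X04_s0 : X04_cl cc cx s d z s 0 = cc.Φ 1 (z s 0) := by
  rw [X04_cl_s]; simp
theorem X04_s1 : X04_cl cc cx s d z s 1 = cc.Φ 1 (z s 1) := by
  rw [X04_cl_s]; simp
theorem X04_d0 : X04_cl cc cx s d z d 0 = cc.Φ 1 (z d 0) := by
  rw [X04_cl_d]; simp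
theorem X04_d1 : X04_cl cc cx s d z d 1 = cc.Φ 1 (z d 1) := by
  rw [X04_cl_d]; simp
theorem X04_sk (k : Fin 3) : X04_cl cc cx s d z s (dt k) = cx.Φ 1 (z s (dt k)) := by
  rw [X04_cl_s, if_neg (X04_dt k)]
theorem X04_dk (k : Fin 3) : X04_cl cc cx s d z d (dt k) = cx.Φ 1 (z d (dt k)) := by
  rw [X04_cl_d, if_neg (X04_dt k)]

theorem X04_postDat (β : ℝ) (h : DatRel s d β z z') : DatRel s d β z (X04_cl cc cx s d z') := by
  obtain ⟨f, g, h1, h1c, h2, h3⟩ := h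
  refine ⟨f, g, h1, h1c, h2, fun k => ?_⟩
  obtain ⟨a1, a2, a3, a4, a5⟩ := h3 k
  have e : X04_cl cc cx s d z' d (dt k) = z' d (dt k) := by
    rw [X04_dk]
    apply cx.fix
    · linarith
    · linarith
  rw [e, X04_sk, X04_hX]
  exact ⟨a1, a2, a3, a4, a5⟩

theorem X04_postB (β : ℝ) (hβ : β = 0 ∨ β = 1) (h : MvB s d β z z') :
    MvB s d β z (X04_cl cc cx s d z') := by
  obtain ⟨h1, h2, h3, h4, h5, h6, h7, h8⟩ := h
  have e0 : X04_cl cc cx s d z' d 0 = z' d 0 := by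
    rw [X04_d0]
    rw [abs_le] at h2
    apply cc.fix
    · rcases hβ with rfl | rfl <;> linarith [h2.1, h2.2]
    · rcases hβ with rfl | rfl <;> linarith [h2.1, h2.2]
  have e1 : ∀ c : ℝ, c = 0 ∨ c = 1 → |z' d 1 - c| ≤ 1/16 → X04_cl cc cx s d z' d 1 = z' d 1 := by
    intro c hc hh
    rw [X04_d1]
    rw [abs_le] at hh
    apply cc.fix
    · rcases hc with rfl | rfl <;> linarith [hh.1, hh.2]
    · rcases hc with rfl | rfl <;> linarith [hh.1, hh.2]
  refine ⟨?_, ?_, ?_, ?_, ?_, ?_, ?_, ?_⟩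
  · rw [X04_s0, X04_hC]; exact h1
  · rw [e0]; exact h2
  · rw [e0]; exact h3
  · intro hh; rw [X04_s1, X04_hC]; exact h4 hh
  · intro hh; rw [X04_s1, X04_hC]; exact h5 hh
  · intro hh
    have a := h6 hh
    have e := e1 0 (Or.inl rfl) (by rw [sub_zero]; exact a.1)
    rw [e]; exact a
  · intro hh
    obtain ⟨a, b⟩ := h7 hh
    constructor
    · intro h9
      have e := e1 1 (Or.inr rfl) (a h9).1
      rw [e]; exact a h9
    · intro h9
      have e := e1 0 (Or.inl rfl) (by rw [sub_zero]; exact (b h9).1)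
      rw [e]; exact b h9
  · exact X04_postDat cc cx s d z z' β h8

theorem X04_post (h : Mv s d z z') : Mv s d z (X04_cl cc cx s d z') :=
  ⟨fun h0 => X04_postB cc cx s d z z' 0 (Or.inl rfl) (h.1 h0),
   fun h0 => X04_postB cc cx s d z z' 1 (Or.inr rfl) (h.2 h0)⟩

theorem X04_preDat (β : ℝ) (h : DatRel s d β (X04_cl cc cx s d z) z') : DatRel s d β z z' := by
  obtain ⟨f, g, h1, h1c, h2, h3⟩ := h
  have hm : (mm : ℝ) = 4096 := by norm_num [mm]
  have key : f = Fl.d → β = 0 ∧ (z d 0 ≤ 1/8 ∨ 7/8 ≤ z d 0) ∧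
      (mm : ℝ) - 1/4 ≤ z d 2 ∧ z d 2 ≤ mm + 1/4 := by
    intro hdb
    obtain ⟨a1, a2, a3, a4⟩ := h1 hdb
    rw [← X04_dt0, X04_dk, X04_dt0] at a3 a4
    rw [X04_d0, X04_Cle cc _ _ (by norm_num) (by norm_num),
      X04_Cge cc _ _ (by norm_num) (by norm_num)] at a2
    have hlo : -1/4 ≤ z d 2 := by
      by_contra hc
      have := cx.lo (z d 2) (le_of_lt (not_le.mp hc))
      have hm' : (0 : ℝ) ≤ mm - 1/4 := by rw [hm]; norm_num
      linarith
    have hup : z d 2 ≤ mm + 1/2 := by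
      by_contra hc
      have := cx.up (z d 2) (le_of_lt (not_le.mp hc))
      linarith
    have e := cx.fix 1 (z d 2) hlo hup
    rw [e] at a3 a4
    exact ⟨a1, a2, a3, a4⟩
  have keyc : f = Fl.c → β = 0 ∧ (z d 0 ≤ 1/8 ∨ 7/8 ≤ z d 0) ∧ z d 2 ≤ 1/4 := by
    intro hdb
    obtain ⟨a1, a2, a3⟩ := h1c hdb
    rw [← X04_dt0, X04_dk, X04_dt0] at a3
    rw [X04_d0, X04_Cle cc _ _ (by norm_num) (by norm_num),
      X04_Cge cc _ _ (by norm_num) (by norm_num)] at a2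
    refine ⟨a1, a2, ?_⟩
    by_contra hc
    have hc' := not_le.mp hc
    rcases le_total (z d 2) (mm + 1/2) with h | h
    · rw [cx.fix 1 (z d 2) (by linarith) h] at a3
      exact hc a3
    · have := cx.up (z d 2) h
      have hm' : (4096 : ℝ) ≤ mm := hm.ge
      linarith
  refine ⟨f, g, key, keyc, ?_, fun k => ?_⟩
  · have e : (fun k => Dg 0 (X04_cl cc cx s d z s (dt k))) = fun k => Dg 0 (z s (dt k)) := by
      funext k
      rw [X04_sk, X04_Dg]
    rw [e] at h2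
    exact h2
  · obtain ⟨a1, a2, a3, a4, a5⟩ := h3 k
    rw [X04_sk, X04_hX, X04_Dg] at a1
    refine ⟨a1, a2, a3, a4, fun hg => ?_⟩
    have a6 := a5 hg
    rw [X04_dk, X04_hX] at a6
    exact a6

theorem X04_preB (β : ℝ) (h : MvB s d β (X04_cl cc cx s d z) z') :
    MvB s d β z z' := by
  obtain ⟨h1, h2, h3, h4, h5, h6, h7, h8⟩ := h
  rw [X04_s0, X04_hC] at h1
  rw [X04_d0, X04_hC] at h3
  rw [X04_s1, X04_Cle cc _ _ (by norm_num) (by norm_num), X04_hC] at h4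
  rw [X04_s1, X04_Cge cc _ _ (by norm_num) (by norm_num), X04_hC] at h5
  rw [X04_d1, X04_hC] at h6
  rw [X04_d1, X04_Cle cc _ _ (by norm_num) (by norm_num),
    X04_Cge cc _ _ (by norm_num) (by norm_num), X04_hC] at h7
  exact ⟨h1, h2, h3, h4, h5, h6, h7, X04_preDat cc cx s d z z' β h8⟩

theorem X04_pre (h : Mv s d (X04_cl cc cx s d z) z') : Mv s d z z' := by
  obtain ⟨h1, h2⟩ := h
  rw [X04_s0, X04_Cle cc _ _ (by norm_num) (by norm_num)] at h1
  rw [X04_s0, X04_Cge cc _ _ (by norm_num) (by norm_num)] at h2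
  exact ⟨fun h0 => X04_preB cc cx s d z z' 0 (h1 h0),
   fun h0 => X04_preB cc cx s d z z' 1 (h2 h0)⟩

end post

theorem X04_Sc0 (t : ℝ) (h : t ≤ 1/4) : Sc t = 0 := by
  unfold Sc stp
  apply Real.smoothTransition.zero_of_nonpos
  apply div_nonpos_of_nonpos_of_nonneg <;> linarith

theorem X04_Sc1 (t : ℝ) (h : 3/4 ≤ t) : Sc t = 1 := by
  unfold Sc stp
  apply Real.smoothTransition.one_of_one_le
  rw [le_div_iff₀ (by norm_num)]
  linarith

theorem X04_Sc_nonneg (t : ℝ) : 0 ≤ Sc t := Real.smoothTransition.nonneg _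

theorem X04_Sc_le (t : ℝ) : Sc t ≤ 1 := Real.smoothTransition.le_one _

theorem X04_exp : Real.exp (-16) * (17/16) ≤ 1/32 := by
  have h := Real.quadratic_le_exp_of_nonneg (x := 16) (by norm_num)
  have h2 : (0 : ℝ) < Real.exp 16 := Real.exp_pos _
  rw [Real.exp_neg, inv_mul_le_iff₀ h2]
  linarith

theorem X04_p1 (p : Fin 3) : p - 1 ≠ p + 1 := by decide +revert
theorem X04_p2 (p : Fin 3) : p ≠ p + 1 := by decide +revert
theorem X04_p3 (p : Fin 3) : p ≠ p - 1 := by decide +revert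
theorem X04_p4 (p i : Fin 3) (h : i ≠ p) : i = p + 1 ∨ i = p - 1 := by decide +revert

/-- TARGET -/
theorem tick_rel (cc : Clamp (5/4)) (cx : Clamp (mm + 1/2)) (ty : Ty) (p : Fin 3)
    (r : ℝ) (hr0 : 0 ≤ r) (hr1 : r ≤ 1) (z : Zs)
    (hS : ∀ i tr, |stk z i tr| ≤ 2 ^ 32) (hR : ∀ k, |reg z k| ≤ 1/16) :
    TickRel 1 ty p (stk z) (stk (tick cc cx ty p r z)) ∧
    (∀ i tr, i ≠ p → |stk (tick cc cx ty p r z) i tr| ≤ 2 ^ 31) ∧
    (∀ k, |reg (tick cc cx ty p r z) k| ≤ 1/32) := by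
  have ht : tick cc cx ty p r z = N1 (cm cc cx false (p + 1) (p - 1) 0
    (cm cc cx true (p - 1) (p + 1) (if ty = Ty.E then r else 0) (z + g0 ty p z))) := rfl
  rw [ht]
  set rr : ℝ := if ty = Ty.E then r else 0 with hrr
  have hrr0 : 0 ≤ rr := by rw [hrr]; split_ifs <;> linarith
  have hrr1 : rr ≤ 1 := by rw [hrr]; split_ifs <;> linarith
  set κ : ℝ := (if ty = Ty.E then 1 else Sc (stk z p 1)) with hκ
  have hκ0 : 0 ≤ κ := by rw [hκ]; split_ifs; norm_num; exact X04_Sc_nonneg _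
  have hκ1 : κ ≤ 1 := by rw [hκ]; split_ifs; norm_num; exact X04_Sc_le _
  set z1 : Zs := z + g0 ty p z with hz1
  have hs1 : stk z1 = stk z := by
    funext i tr
    change z (Sum.inl (i, tr)) + 0 = z (Sum.inl (i, tr))
    rw [add_zero]
  have hr10 : reg z1 0 = reg z 0 + κ := by
    change z (Sum.inr 0) + (if (0 : Fin 12) = 0 then κ else 0) = z (Sum.inr 0) + κ
    rw [if_pos rfl]
  have hr1k : ∀ k, k ≠ 0 → reg z1 k = reg z k := by
    intro k hk
    change z (Sum.inr k) + (if k = 0 then κ else 0) = z (Sum.inr k)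
    rw [if_neg hk, add_zero]
  have hS1 : ∀ i tr, |stk z1 i tr| ≤ 2 ^ 32 := by rw [hs1]; exact hS
  have hR1 : ∀ k, k ≠ 0 → |reg z1 k| ≤ 1/16 := by
    intro k hk; rw [hr1k k hk]; exact hR k
  have reg2 := cm_reg cc cx true (p - 1) (p + 1) (X04_p1 p) rr z1 hR1
  have bd2 := cm_bound cc cx true (p - 1) (p + 1) (X04_p1 p) rr z1 hS1
  have mv2 := cm_move cc cx true (p - 1) (p + 1) (X04_p1 p) rr hrr0 hrr1 z1 hS1 hR1
  have ze2 := cm_zero cc cx true (p - 1) (p + 1) (X04_p1 p) rr z1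
  set z2 : Zs := cm cc cx true (p - 1) (p + 1) rr z1 with hz2
  have hR2 : ∀ k, k ≠ 0 → |reg z2 k| ≤ 1/16 := fun k hk => (reg2.2 k hk).trans (by norm_num)
  have hp2 : ∀ tr, stk z2 p tr = stk z p tr := by
    intro tr
    rw [bd2.2 p tr (X04_p3 p) (X04_p2 p), hs1]
  have hS2 : ∀ i tr, |stk z2 i tr| ≤ 2 ^ 32 := by
    intro i tr
    by_cases hi : i = p
    · rw [hi, hp2]; exact hS p tr
    · rcases X04_p4 p i hi with h | h
      · exact (bd2.1 i tr (Or.inr h)).trans (by norm_num)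
      · exact (bd2.1 i tr (Or.inl h)).trans (by norm_num)
  have reg3 := cm_reg cc cx false (p + 1) (p - 1) (X04_p1 p).symm 0 z2 hR2
  have bd3 := cm_bound cc cx false (p + 1) (p - 1) (X04_p1 p).symm 0 z2 hS2
  have mv3 := cm_move cc cx false (p + 1) (p - 1) (X04_p1 p).symm 0 le_rfl (by norm_num) z2
    hS2 hR2
  have ze3 := cm_zero cc cx false (p + 1) (p - 1) (X04_p1 p).symm 0 z2
  set z3 : Zs := cm cc cx false (p + 1) (p - 1) 0 z2 with hz3
  have hs4 : stk (N1 z3) = stk z3 := rfl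
  rw [hs4]
  have hW2 : Wt true z1 = Sc (reg z 0 + κ) := by
    change Sc (reg z1 0) = _
    rw [hr10]
  have hW3 : Wt false z2 = 1 - Sc (reg z 0 + κ) := by
    change 1 - Sc (reg z2 0) = _
    rw [reg2.1, hr10]
  have hR0 := abs_le.mp (hR 0)
  -- the case where the first conditional move is performed
  have caseA : κ = 1 → Mv (p - 1) (p + 1) (stk z) (stk z3) := by
    intro hk
    have hsc : Sc (reg z 0 + κ) = 1 := X04_Sc1 _ (by rw [hk]; linarith [hR0.1])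
    have m := mv2 (by rw [hW2, hsc])
    rw [hs1] at m
    have e := ze3 (by rw [hW3, hsc]; norm_num)
    rw [e, X04_M0, X04_cl_comm]
    exact X04_post cc cx _ _ _ _ m
  have caseB : κ = 0 → Mv (p + 1) (p - 1) (stk z) (stk z3) := by
    intro hk
    have hsc : Sc (reg z 0 + κ) = 0 := X04_Sc0 _ (by rw [hk]; linarith [hR0.2])
    have e := ze2 (by rw [hW2, hsc])
    rw [X04_M0, hs1, X04_cl_comm] at e
    have m := mv3 (by rw [hW3, hsc]; norm_num)
    rw [e] at m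
    exact X04_pre cc cx _ _ _ _ m
  refine ⟨⟨?_, ?_, ?_⟩, ?_, ?_⟩
  · intro tr
    rw [bd3.2 p tr (X04_p2 p) (X04_p3 p), hp2]
  · intro hE
    exact caseA (by rw [hκ, if_pos hE])
  · intro hF
    have hne : ¬ ty = Ty.E := by rw [hF]; decide
    constructor
    · intro hc
      exact caseB (by rw [hκ, if_neg hne, X04_Sc0 _ hc])
    · intro hc
      exact caseA (by rw [hκ, if_neg hne, X04_Sc1 _ hc])
  · intro i tr hi
    exact bd3.1 i tr (X04_p4 p i hi)
  · intro k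
    by_cases hk : k = 0
    · have e : reg (N1 z3) k = Real.exp (-16) * reg z3 0 := by
        change (if k = 0 then Real.exp (-16) * reg z3 0 else reg z3 k) = _
        rw [if_pos hk]
      rw [e, reg3.1, reg2.1, hr10, abs_mul, abs_of_pos (Real.exp_pos _)]
      have h1 : |reg z 0 + κ| ≤ 17/16 := by
        rw [abs_le]; constructor <;> linarith [hR0.1, hR0.2]
      calc Real.exp (-16) * |reg z 0 + κ| ≤ Real.exp (-16) * (17/16) :=
            mul_le_mul_of_nonneg_left h1 (Real.exp_pos _).le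
        _ ≤ 1/32 := X04_exp
    · have e : reg (N1 z3) k = reg z3 k := by
        change (if k = 0 then Real.exp (-16) * reg z3 0 else reg z3 k) = _
        rw [if_neg hk]
      rw [e]
      exact reg3.2 k hk

end Pool.Agent.Y203.QC
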