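import Pool.Agent.Y203.QC.Phys
import Pool.Agent.Helper961.Aub.ZFlow
import Pool.Agent.Y256.QC.ZTick

/-!
Project QC (owner helper203), job QC-ZSM: the flow through the sixteen slots of one tick.
Port of `Pool.Agent.Helper961.Aub.ZSlot`.
-/

set_option autoImplicit false

open Set Filter Topology MeasureTheory

namespace Pool.Agent.Y203.QC

open Pool.Agent.Aub (mm lam Stk dt stp Sc S1 S2 Qx gT gt cT ct hC hX Dg Ty stg rho mu posn peel cE cF
  DD rb subTy subP subC sub broken Clamp Ix Zs stk reg mkz Wt f0 f1 f4 f6 g0 g1 M0 M4 M6 N1 tyj pj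
  Cell sT Dle vb tyn Jx EE mkp pz py pth LL psi Rho Realz Th yo PerField IsFlow action hT lat IsCurve
  flow_facts)

private theorem Z07q_step (cc : Clamp (5/4)) (cx : Clamp (mm + 1/2)) (rh : Rho) {F : EE → EE}
    {φ : ℝ → EE → EE} (h : Realz 97 (YY cc cx rh) LL F φ) (q : ℤ) (j : ℕ) (hj : j < 6)
    (y : ℝ) (c : ℕ → Zs) (i : Fin 16)
    (hc : ∃ ζ : ℝ → Zs, ζ 0 = c (i : ℕ) ∧ ζ 1 = c ((i : ℕ) + 1) ∧ ∀ u ∈ Icc (0 : ℝ) 1,
        HasDerivAt ζ (slotf cc cx (tyj j) (pj j) (rh.ρ y) i (ζ u)) u ∧ ∀ k, |ζ u k| ≤ 2 ^ 38) :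
    φ 1 (mkp (c (i : ℕ)) y (q * LL + 16 * j + ((i : ℕ) : ℝ))) =
      mkp (c ((i : ℕ) + 1)) y (q * LL + 16 * j + (((i : ℕ) + 1 : ℕ) : ℝ)) := by
  obtain ⟨ζ, h0, h1, hζ⟩ := hc
  have hi := i.2
  have hk : 16 * j + (i : ℕ) < 97 := by omega
  have hk' : 16 * j + (i : ℕ) < 96 := by omega
  have hd : (16 * j + (i : ℕ)) / 16 = j := by omega
  have hm : (16 * j + (i : ℕ)) % 16 = (i : ℕ) := by omega
  have key := h.slot ⟨16 * j + (i : ℕ), hk⟩ q ζ (fun _ => y) (by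
    intro u hu
    obtain ⟨h2, h3⟩ := hζ u hu
    refine ⟨?_, ?_⟩
    · have e : YY cc cx rh ⟨16 * j + (i : ℕ), hk⟩ (ζ u, y) =
          (slotf cc cx (tyj j) (pj j) (rh.ρ y) i (ζ u), 0) := by
        unfold YY
        rw [dif_pos hk']
        have e2 : (⟨(16 * j + (i : ℕ)) % 16, Nat.mod_lt _ (by norm_num)⟩ : Fin 16) = i :=
          Fin.ext hm
        simp only [hd, e2]
      rw [e]
      exact h2.prodMk (hasDerivAt_const u y)
    · intro k
      refine (h3 k).trans (le_of_eq ?_)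
      unfold LL
      norm_num)
  rw [h0, h1] at key
  have c1 : (q : ℝ) * LL + ((((⟨16 * j + (i : ℕ), hk⟩ : Fin 97) : ℕ)) : ℝ) =
      q * LL + 16 * j + ((i : ℕ) : ℝ) := by
    push_cast
    ring
  have c2 : (q : ℝ) * LL + ((((⟨16 * j + (i : ℕ), hk⟩ : Fin 97) : ℕ)) : ℝ) + 1 =
      q * LL + 16 * j + (((i : ℕ) + 1 : ℕ) : ℝ) := by
    push_cast
    ring
  rw [c2, c1] at key
  exact key

/-- TARGET -/
theorem slot_flow (cc : Clamp (5/4)) (cx : Clamp (mm + 1/2)) (rh : Rho) {F : EE → EE}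
    {φ : ℝ → EE → EE} (h : Realz 97 (YY cc cx rh) LL F φ) (q : ℤ) (j : ℕ) (hj : j < 6)
    (z : Zs) (y : ℝ) (hS : ∀ i tr, |stk z i tr| ≤ 2 ^ 32) (hR : ∀ k, |reg z k| ≤ 1/16) :
    φ 16 (mkp z y (q * LL + 16 * j)) =
      mkp (tick cc cx (tyj j) (pj j) (rh.ρ y) z) y (q * LL + 16 * (j + 1)) := by
  have hLL : (0 : ℝ) < LL := by
    unfold LL
    positivity
  obtain ⟨K, B, -, -, -, -, hadd, -, -⟩ := flow_facts hLL h.smooth h.per h.flow
  obtain ⟨c, hc0, hc16, hc⟩ := tick_reach cc cx (tyj j) (pj j) (rh.ρ y) z hS hR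
  have ind : ∀ i : ℕ, i ≤ 16 → φ (i : ℝ) (mkp z y (q * LL + 16 * j)) =
      mkp (c i) y (q * LL + 16 * j + (i : ℝ)) := by
    intro i
    induction i with
    | zero =>
      intro _
      rw [Nat.cast_zero, h.flow.1, hc0, add_zero]
    | succ i ih =>
      intro hi
      have hi' : i < 16 := by omega
      have e : ((i + 1 : ℕ) : ℝ) = 1 + (i : ℝ) := by
        push_cast
        ring
      have st := Z07q_step cc cx rh h q j hj y c ⟨i, hi'⟩ (hc ⟨i, hi'⟩)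
      rw [e, hadd, ih (by omega), ← e]
      exact st
  have fin := ind 16 le_rfl
  rw [hc16] at fin
  have e1 : ((16 : ℕ) : ℝ) = 16 := by norm_num
  rw [e1] at fin
  rw [fin]
  congr 1
  ring

end Pool.Agent.Y203.QC
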