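import Pool.Agent.Y203.QC.Phys
import Pool.Agent.Helper961.Aub.ZSec
import Pool.Agent.Y839.QC.ZSlot

/-!
Project QC (owner helper203), job QC-ZSM: the flow from one section to the next.
Port of `Pool.Agent.Helper961.Aub.ZSec`.
-/

set_option autoImplicit false

open Set Filter Topology MeasureTheory

namespace Pool.Agent.Y203.QC

open Pool.Agent.Aub (mm lam Stk dt stp Sc S1 S2 Qx gT gt cT ct hC hX Dg Ty stg rho mu posn peel cE cF
  DD rb subTy subP subC sub broken Clamp Ix Zs stk reg mkz Wt f0 f1 f4 f6 g0 g1 M0 M4 M6 N1 tyj pj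
  Cell sT Dle vb tyn Jx EE mkp pz py pth LL psi Rho Realz Th yo PerField IsFlow action hT lat IsCurve
  flow_facts y_flow Z09_I Z09_J Z09_JI Z09_vec Z09_nil Z09_stp Z09_mul Z09_sub Z09_Sc Z09_S1 Z09_S2
  Z09_Qx Z09_gT Z09_gt Z09_cT Z09_ct Z09_Wt Z09_JmulI Z09_f1 Z09_absI Z09_absn Z09_M0 Z09_M4 Z09_M6
  Z09_N1)

theorem Z09q_bT (a b : ℝ) : Z09_J (bT a b) := Z09_mul (Z09_stp _ _ _) (Z09_sub (Z09_stp _ _ _))
theorem Z09q_bt (a b : ℝ) : Z09_J (bt a b) := Z09_mul (Z09_stp _ _ _) (Z09_sub (Z09_stp _ _ _))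

def Z09q_A (x : ℝ) : Prop := |x| ≤ 4096

theorem Z09q_diff {w x y : ℝ} (hw : Z09_J w) (hx : Z09_J x) (hy : Z09_J y) :
    Z09q_A (w * (x - y)) := by
  unfold Z09q_A
  have h1 : |x - y| ≤ 1 := by
    rw [abs_le]
    constructor <;> linarith [hx.1, hx.2, hy.1, hy.2]
  rw [abs_mul, abs_of_nonneg hw.1]
  have h2 := hw.2
  have h3 := hw.1
  have h4 := abs_nonneg (x - y)
  nlinarith

theorem Z09q_f2 (d : Fin 3) (z : Zs) : ∀ k, Z09q_A (reg (f2 d z) k) := by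
  show ∀ k, Z09q_A ((![0, 0, 0, 0, 0, 0, 0, 0, 0, 0,
    (1 - Sc (reg z 1)) * (gT (stk z d 0) * cT (Qx (reg z 6)) (stk z d 2) -
      gt (stk z d 0) * bt (Qx (reg z 6)) (stk z d 2)),
    (1 - Sc (reg z 1)) * (gt (stk z d 0) * ct (Qx (reg z 6)) (stk z d 2) -
      gT (stk z d 0) * bT (Qx (reg z 6)) (stk z d 2))] : Fin 12 → ℝ) k)
  have h0 : Z09q_A 0 := by
    unfold Z09q_A
    norm_num
  exact Z09_vec (P := Z09q_A) h0 (Z09_vec h0 (Z09_vec h0 (Z09_vec h0 (Z09_vec h0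
    (Z09_vec h0 (Z09_vec h0 (Z09_vec h0 (Z09_vec h0 (Z09_vec h0
    (Z09_vec (Z09q_diff (Z09_sub (Z09_Sc _)) (Z09_mul (Z09_gT _) (Z09_cT _ _))
      (Z09_mul (Z09_gt _) (Z09q_bt _ _)))
    (Z09_vec (Z09q_diff (Z09_sub (Z09_Sc _)) (Z09_mul (Z09_gt _) (Z09_ct _ _))
      (Z09_mul (Z09_gT _) (Z09q_bT _ _)))
    Z09_nil)))))))))))

theorem Z09q_pushed (r : ℝ) (z : Zs) : ∀ k, Z09_I (pushed r z k) :=
  Z09_vec (Z09_JI (Z09_sub (Z09_Sc _))) (Z09_vec (Z09_JI (Z09_mul (Z09_sub (Z09_Sc _))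
    (Z09_sub (Z09_Sc _)))) (Z09_vec (Z09_Qx _) (Z09_vec (Z09_Qx _) (Z09_vec (Z09_Qx _) Z09_nil))))

theorem Z09q_f3 (b : Bool) (s d : Fin 3) (z : Zs) (i : Fin 3) (tr : Fin 5) :
    |stk (f3 b s d z) i tr| ≤ 4096 ∧ (¬ (i = s ∨ i = d) → stk (f3 b s d z) i tr = 0) := by
  have e : stk (f3 b s d z) i tr = if i = s then
      -(Wt b z * ![Sc (reg z 1), Sc (reg z 2), Qx (reg z 7), Qx (reg z 8), Qx (reg z 9)] tr)
    else if i = d ∧ tr = 2 then -(Wt b z * (bb * Sg (reg z 10))) else 0 := rfl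
  rw [e]
  constructor
  · split_ifs with h1 h2
    · refine Z09_absn (Z09_JmulI (Z09_Wt _ _) ?_)
      exact Z09_vec (P := Z09_I) (Z09_JI (Z09_Sc _)) (Z09_vec (Z09_JI (Z09_Sc _)) (Z09_vec (Z09_Qx _)
        (Z09_vec (Z09_Qx _) (Z09_vec (Z09_Qx _) Z09_nil)))) tr
    · have hW := Z09_Wt b z
      have h3 := Z09_Sc (reg z 10)
      have h5 := Z09_Sc (-(reg z 10))
      have h4 : (bb : ℝ) = 4095 := by unfold bb; norm_num
      have h6 : |Sg (reg z 10)| ≤ 1 := by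
        unfold Sg
        rw [abs_le]
        constructor <;> linarith [h3.1, h3.2, h5.1, h5.2]
      rw [abs_neg, abs_mul, abs_of_nonneg hW.1, abs_mul, h4, abs_of_nonneg (by norm_num)]
      have h7 := abs_nonneg (Sg (reg z 10))
      have h8 := hW.1
      have h9 := hW.2
      have h10 : 4095 * |Sg (reg z 10)| ≤ 4095 := by linarith
      have h11 : 0 ≤ 4095 * |Sg (reg z 10)| := by linarith
      nlinarith
    · norm_num
  · intro h
    push Not at h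
    rw [if_neg h.1, if_neg (fun h2 => h.2 h2.1)]

theorem Z09q_f5 (b : Bool) (d : Fin 3) (r : ℝ) (z : Zs) (i : Fin 3) (tr : Fin 5) :
    |stk (f5 b d r z) i tr| ≤ 4096 ∧ (i ≠ d → stk (f5 b d r z) i tr = 0) := by
  have e : stk (f5 b d r z) i tr = if i = d then Wt b z * pushed r z tr else 0 := rfl
  rw [e]
  constructor
  · split_ifs with h1
    · exact Z09_absI (Z09_JmulI (Z09_Wt _ _) (Z09q_pushed _ _ _))
    · norm_num
  · intro h
    rw [if_neg h]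

theorem Z09q_cm (cc : Clamp (5/4)) (cx : Clamp (mm + 1/2)) (b : Bool) (s d : Fin 3) (r : ℝ)
    (z : Zs) (hS : ∀ i tr, |stk z i tr| ≤ 2 ^ 32) (B : ℝ) (hR : ∀ k, |reg z k| ≤ B) :
    (∀ i tr, |stk (cm cc cx b s d r z) i tr| ≤ 2 ^ 32) ∧
      (∀ k, |reg (cm cc cx b s d r z) k| ≤ B + 8192) := by
  obtain ⟨z0, hz0⟩ : ∃ z0, z0 = M0 cc cx s d z := ⟨_, rfl⟩
  obtain ⟨z1, hz1⟩ : ∃ z1, z1 = z0 + f1 s d z0 := ⟨_, rfl⟩
  obtain ⟨z2, hz2⟩ : ∃ z2, z2 = z1 + f2 d z1 := ⟨_, rfl⟩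
  obtain ⟨z3, hz3⟩ : ∃ z3, z3 = z2 + f3 b s d z2 := ⟨_, rfl⟩
  obtain ⟨z4, hz4⟩ : ∃ z4, z4 = M4 b s d z3 := ⟨_, rfl⟩
  obtain ⟨z5, hz5⟩ : ∃ z5, z5 = z4 + f5 b d r z4 := ⟨_, rfl⟩
  have hcm : cm cc cx b s d r z = M6 z5 := by
    rw [hz5, hz4, hz3, hz2, hz1, hz0]; rfl
  rw [hcm]
  have s1 : ∀ i tr, stk z1 i tr = stk z0 i tr := by
    intro i tr; rw [hz1]
    show stk z0 i tr + 0 = _
    rw [add_zero]
  have s2 : ∀ i tr, stk z2 i tr = stk z0 i tr := by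
    intro i tr; rw [← s1, hz2]
    show stk z1 i tr + 0 = _
    rw [add_zero]
  have s3 : ∀ i tr, stk z3 i tr = stk z0 i tr + stk (f3 b s d z2) i tr := by
    intro i tr; rw [← s2, hz3]; rfl
  have s5 : ∀ i tr, stk z5 i tr = stk z4 i tr + stk (f5 b d r z4) i tr := by
    intro i tr; rw [hz5]; rfl
  have s6 : ∀ i tr, stk (M6 z5) i tr = stk z5 i tr := fun i tr => rfl
  have r0 : ∀ k, reg z0 k = reg z k := by intro k; rw [hz0]; rfl
  have r1 : ∀ k, reg z1 k = reg z k + reg (f1 s d z0) k := by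
    intro k; rw [← r0, hz1]; rfl
  have r2 : ∀ k, reg z2 k = reg z1 k + reg (f2 d z1) k := by
    intro k; rw [hz2]; rfl
  have r3 : ∀ k, reg z3 k = reg z2 k := by
    intro k; rw [hz3]
    show reg z2 k + 0 = _
    rw [add_zero]
  have r4 : ∀ k, reg z4 k = reg z3 k := by intro k; rw [hz4]; rfl
  have r5 : ∀ k, reg z5 k = reg z4 k := by
    intro k; rw [hz5]
    show reg z4 k + 0 = _
    rw [add_zero]
  constructor
  · intro i tr
    rw [s6, s5]
    obtain ⟨m1, m2⟩ := Z09_M0 cc cx s d z hS i tr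
    obtain ⟨a1, a2⟩ := Z09q_f3 b s d z2 i tr
    obtain ⟨b1, b2⟩ := Z09_M4 b s d z3 i tr
    obtain ⟨c1, c2⟩ := Z09q_f5 b d r z4 i tr
    rw [← hz0] at m1 m2
    rw [← hz4] at b1 b2
    by_cases h : i = s ∨ i = d
    · have h1 := m1 h
      have h2 : |stk z3 i tr| ≤ 4097 + 4096 := by
        rw [s3]
        exact (abs_add_le _ _).trans (add_le_add h1 a1)
      have h3 : |stk z4 i tr| ≤ 131072 * (4097 + 4096) :=
        b1.trans (mul_le_mul_of_nonneg_left h2 (by norm_num))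
      refine (abs_add_le _ _).trans ((add_le_add h3 c1).trans ?_)
      norm_num
    · have h1 : i ≠ d := fun e => h (Or.inr e)
      rw [c2 h1, add_zero, b2 h, s3, a2 h, add_zero, m2 h]
      exact hS i tr
  · intro k
    refine (Z09_M6 z5 k).trans ?_
    rw [r5, r4, r3, r2, r1]
    have h1 := Z09_absI (Z09_f1 s d z0 k)
    have h2 : |reg (f2 d z1) k| ≤ 4096 := Z09q_f2 d z1 k
    have h3 := hR k
    have h4 := abs_add_le (reg z k + reg (f1 s d z0) k) (reg (f2 d z1) k)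
    have h5 := abs_add_le (reg z k) (reg (f1 s d z0) k)
    linarith

theorem Z09q_tick (cc : Clamp (5/4)) (cx : Clamp (mm + 1/2)) (ty : Ty) (p : Fin 3) (r : ℝ)
    (z : Zs) (hS : ∀ i tr, |stk z i tr| ≤ 2 ^ 32) (hR : ∀ k, |reg z k| ≤ 1/16) (i : Ix) :
    |tick cc cx ty p r z i| ≤ LL / 4 := by
  have hS' : ∀ i tr, |stk (z + g0 ty p z) i tr| ≤ 2 ^ 32 := by
    intro i tr
    have : stk (z + g0 ty p z) i tr = stk z i tr + 0 := rfl
    rw [this, add_zero]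
    exact hS i tr
  have hR' : ∀ k, |reg (z + g0 ty p z) k| ≤ 2 := by
    intro k
    have e : reg (z + g0 ty p z) k = reg z k +
      (if k = 0 then (if ty = Ty.E then 1 else Sc (stk z p 1)) else 0) := rfl
    rw [e]
    have h1 : |(if k = 0 then (if ty = Ty.E then 1 else Sc (stk z p 1)) else (0:ℝ))| ≤ 1 := by
      have h2 := Z09_Sc (stk z p 1)
      split_ifs
      · norm_num
      · rw [abs_of_nonneg h2.1]; exact h2.2
      · norm_num
    have h3 := hR k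
    have h4 := abs_add_le (reg z k) (if k = 0 then (if ty = Ty.E then 1 else Sc (stk z p 1)) else 0)
    linarith
  obtain ⟨c1, c2⟩ := Z09q_cm cc cx true (p - 1) (p + 1) (if ty = Ty.E then r else 0) _ hS' 2 hR'
  obtain ⟨d1, d2⟩ := Z09q_cm cc cx false (p + 1) (p - 1) 0 _ c1 _ c2
  have hLL : LL / 4 = 2 ^ 38 := by unfold LL; norm_num
  rw [hLL]
  rcases i with ⟨i, tr⟩ | k
  · have e : tick cc cx ty p r z (Sum.inl (i, tr)) = stk (cm cc cx false (p + 1) (p - 1) 0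
      (cm cc cx true (p - 1) (p + 1) (if ty = Ty.E then r else 0) (z + g0 ty p z))) i tr := rfl
    rw [e]
    exact (d1 i tr).trans (by norm_num)
  · have e : tick cc cx ty p r z (Sum.inr k) = reg (N1 (cm cc cx false (p + 1) (p - 1) 0
      (cm cc cx true (p - 1) (p + 1) (if ty = Ty.E then r else 0) (z + g0 ty p z)))) k := rfl
    rw [e]
    refine (Z09_N1 _ k).trans ((d2 k).trans ?_)
    norm_num

/-- TARGET -/
theorem section_flow (cc : Clamp (5/4)) (cx : Clamp (mm + 1/2)) (rh : Rho) {F : EE → EE}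
    {φ : ℝ → EE → EE} (h : Realz 97 (YY cc cx rh) LL F φ) (n : ℕ)
    (z : Zs) (y : ℝ) (hS : ∀ i tr, |stk z i tr| ≤ 2 ^ 32) (hR : ∀ k, |reg z k| ≤ 1/16) :
    ∃ y', φ (Th (n + 1) - Th n) (mkp z y (Th n)) =
      mkp (tick cc cx (tyj n) (pj n) (rh.ρ y) z) y' (Th (n + 1)) := by
  obtain ⟨q, r, hn, hr⟩ : ∃ q r : ℕ, n = 6 * q + r ∧ r < 6 := ⟨n / 6, n % 6, by omega, by omega⟩
  have hty : tyj n = tyj r := by
    unfold tyj
    have : n % 2 = r % 2 := by omega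
    rw [this]
  have hpj : pj n = pj r := by
    unfold pj
    apply Fin.ext
    simp only [Fin.ofNat]
    omega
  have hTn : Th n = ((q : ℤ) : ℝ) * LL + 16 * (r : ℝ) := by
    unfold Th
    have e1 : n / 6 = q := by omega
    have e2 : n % 6 = r := by omega
    rw [e1, e2]; push_cast; ring
  have hsf := slot_flow cc cx rh h (q : ℤ) r hr z y hS hR
  rcases Nat.lt_or_ge r 5 with hr5 | hr5
  · refine ⟨y, ?_⟩
    have hTn1 : Th (n + 1) = ((q : ℤ) : ℝ) * LL + 16 * ((r : ℝ) + 1) := by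
      unfold Th
      have e1 : (n + 1) / 6 = q := by omega
      have e2 : (n + 1) % 6 = r + 1 := by omega
      rw [e1, e2]; push_cast; ring
    have e3 : Th (n + 1) - Th n = 16 := by rw [hTn1, hTn]; ring
    rw [e3, hTn, hTn1, hty, hpj]
    exact hsf
  · have hr' : r = 5 := by omega
    subst hr'
    have hLL : LL = 2 ^ 40 := rfl
    have hLLpos : 0 < LL := by rw [hLL]; norm_num
    obtain ⟨K, B, -, -, -, -, hadd, -, -⟩ := flow_facts hLLpos h.smooth h.per h.flow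
    obtain ⟨η, hη0, hη⟩ := y_flow y
    obtain ⟨z1, hz1⟩ : ∃ z1, z1 = tick cc cx (tyj 5) (pj 5) (rh.ρ y) z := ⟨_, rfl⟩
    have hb : ∀ i, |z1 i| ≤ LL / 4 := by
      intro i; rw [hz1]; exact Z09q_tick cc cx _ _ _ z hS hR i
    refine ⟨η 1, ?_⟩
    have hTn1 : Th (n + 1) = ((q : ℤ) : ℝ) * LL + LL := by
      unfold Th
      have e1 : (n + 1) / 6 = q + 1 := by omega
      have e2 : (n + 1) % 6 = 0 := by omega
      rw [e1, e2]; push_cast; ring
    have e3 : Th (n + 1) - Th n = (LL - 97) + (1 + 16) := by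
      rw [hTn1, hTn]; push_cast; ring
    rw [e3, hadd, hadd, hTn, hsf, hty, hpj, ← hz1]
    have hslot := h.slot ⟨96, by norm_num⟩ (q : ℤ) (fun _ => z1) η (by
      intro u _
      refine ⟨?_, hb⟩
      have e4 : YY cc cx rh ⟨96, by norm_num⟩ (z1, η u) = (0, psi (η u)) := by
        unfold YY
        rw [dif_neg (by norm_num)]
      rw [e4]
      exact (hasDerivAt_const u z1).prodMk (hη u))
    have e5 : ((q : ℤ) : ℝ) * LL + 16 * (((5 : ℕ) : ℝ) + 1) =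
        ((q : ℤ) : ℝ) * LL + (((⟨96, by norm_num⟩ : Fin 97) : ℕ) : ℝ) := by
      push_cast; norm_num
    rw [e5, ← hη0, hslot]
    have e6 : ((q : ℤ) : ℝ) * LL + (((⟨96, by norm_num⟩ : Fin 97) : ℕ) : ℝ) + 1 =
        ((q : ℤ) : ℝ) * LL + ((97 : ℕ) : ℝ) := by
      push_cast; ring
    rw [e6, h.idle (q : ℤ) z1 (η 1) (LL - 97) (by rw [hLL]; norm_num) (by push_cast; linarith), hTn1]
    congr 1
    push_cast; ring

end Pool.Agent.Y203.QC
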