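import Pool.Agent.Y203.QC.Phys
import Pool.Agent.Helper961.Aub.ZSmooth

/-!
Project QC (owner helper203), job QC-ZSM: smoothness of the fields of the slots.
Port of `Pool.Agent.Helper961.Aub.ZSmooth`.
-/

set_option autoImplicit false

open Set Filter Topology MeasureTheory

namespace Pool.Agent.Y203.QC

open Pool.Agent.Aub (mm lam Stk dt stp Sc S1 S2 Qx gT gt cT ct hC hX Dg Ty stg rho mu posn peel cE cF
  DD rb subTy subP subC sub broken Clamp Ix Zs stk reg mkz Wt f0 f1 f4 f6 g0 g1 M0 M4 M6 N1 tyj pj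
  Cell sT Dle vb tyn Jx EE mkp pz py pth LL psi Rho Realz Th yo PerField IsFlow action hT lat IsCurve
  Z03_stp Z03_Sc Z03_S1 Z03_S2 Z03_Qx Z03_gT Z03_gt Z03_cT Z03_ct Z03_stk Z03_reg Z03_Wt Z03_mkz
  Z03_f0 Z03_f1 Z03_f4 Z03_f6 Z03_g0 Z03_g1)

section Z03q
variable {E : Type*} [NormedAddCommGroup E] [NormedSpace ℝ E]

attribute [local irreducible] S1 S2 Qx Sc

@[fun_prop] theorem Z03q_Sg {f : E → ℝ} (hf : ContDiff ℝ ((⊤ : ℕ∞) : WithTop ℕ∞) f) :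
    ContDiff ℝ ((⊤ : ℕ∞) : WithTop ℕ∞) (fun x => Sg (f x)) := by
  unfold Sg
  exact (Z03_Sc hf).sub (Z03_Sc hf.neg)

@[fun_prop] theorem Z03q_bT {f g : E → ℝ} (hf : ContDiff ℝ ((⊤ : ℕ∞) : WithTop ℕ∞) f)
    (hg : ContDiff ℝ ((⊤ : ℕ∞) : WithTop ℕ∞) g) :
    ContDiff ℝ ((⊤ : ℕ∞) : WithTop ℕ∞) (fun x => bT (f x) (g x)) := by
  unfold bT
  fun_prop

@[fun_prop] theorem Z03q_bt {f g : E → ℝ} (hf : ContDiff ℝ ((⊤ : ℕ∞) : WithTop ℕ∞) f)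
    (hg : ContDiff ℝ ((⊤ : ℕ∞) : WithTop ℕ∞) g) :
    ContDiff ℝ ((⊤ : ℕ∞) : WithTop ℕ∞) (fun x => bt (f x) (g x)) := by
  unfold bt
  fun_prop

@[fun_prop] theorem Z03q_hi {f g : E → ℝ} (hf : ContDiff ℝ ((⊤ : ℕ∞) : WithTop ℕ∞) f)
    (hg : ContDiff ℝ ((⊤ : ℕ∞) : WithTop ℕ∞) g) :
    ContDiff ℝ ((⊤ : ℕ∞) : WithTop ℕ∞) (fun x => carryHi (f x) (g x)) := by
  unfold carryHi
  fun_prop

@[fun_prop] theorem Z03q_lo {f g : E → ℝ} (hf : ContDiff ℝ ((⊤ : ℕ∞) : WithTop ℕ∞) f)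
    (hg : ContDiff ℝ ((⊤ : ℕ∞) : WithTop ℕ∞) g) :
    ContDiff ℝ ((⊤ : ℕ∞) : WithTop ℕ∞) (fun x => carryLo (f x) (g x)) := by
  unfold carryLo
  fun_prop

theorem Z03q_GG {f0 f1 f2 t : E → ℝ} (h0 : ContDiff ℝ ((⊤ : ℕ∞) : WithTop ℕ∞) f0)
    (h1 : ContDiff ℝ ((⊤ : ℕ∞) : WithTop ℕ∞) f1)
    (h2 : ContDiff ℝ ((⊤ : ℕ∞) : WithTop ℕ∞) f2) (ht : ContDiff ℝ ((⊤ : ℕ∞) : WithTop ℕ∞) t)
    (k : Fin 3) :
    ContDiff ℝ ((⊤ : ℕ∞) : WithTop ℕ∞) (fun x => GG (f0 x) (f1 x) (f2 x) (t x) k) := by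
  unfold GG
  fin_cases k
  · show ContDiff ℝ ((⊤ : ℕ∞) : WithTop ℕ∞)
      (fun x => carryHi (f0 x) (carryHi (f1 x) (f2 x + t x)))
    fun_prop
  · show ContDiff ℝ ((⊤ : ℕ∞) : WithTop ℕ∞)
      (fun x => carryLo (f0 x) (carryHi (f1 x) (f2 x + t x)))
    fun_prop
  · show ContDiff ℝ ((⊤ : ℕ∞) : WithTop ℕ∞) (fun x => carryLo (f1 x) (f2 x + t x))
    fun_prop

theorem Z03q_f2 (d : Fin 3) {z : E → Zs}
    (hz : ContDiff ℝ ((⊤ : ℕ∞) : WithTop ℕ∞) z) :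
    ContDiff ℝ ((⊤ : ℕ∞) : WithTop ℕ∞) (fun x => f2 d (z x)) := by
  unfold f2
  refine Z03_mkz (fun i tr => contDiff_const) (fun k => ?_)
  fin_cases k
  · exact contDiff_const
  · exact contDiff_const
  · exact contDiff_const
  · exact contDiff_const
  · exact contDiff_const
  · exact contDiff_const
  · exact contDiff_const
  · exact contDiff_const
  · exact contDiff_const
  · exact contDiff_const
  · show ContDiff ℝ ((⊤ : ℕ∞) : WithTop ℕ∞) (fun x => (1 - Sc (reg (z x) 1)) *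
      (gT (stk (z x) d 0) * cT (Qx (reg (z x) 6)) (stk (z x) d 2) -
        gt (stk (z x) d 0) * bt (Qx (reg (z x) 6)) (stk (z x) d 2)))
    fun_prop
  · show ContDiff ℝ ((⊤ : ℕ∞) : WithTop ℕ∞) (fun x => (1 - Sc (reg (z x) 1)) *
      (gt (stk (z x) d 0) * ct (Qx (reg (z x) 6)) (stk (z x) d 2) -
        gT (stk (z x) d 0) * bT (Qx (reg (z x) 6)) (stk (z x) d 2)))
    fun_prop

theorem Z03q_f3 (b : Bool) (s d : Fin 3) {z : E → Zs}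
    (hz : ContDiff ℝ ((⊤ : ℕ∞) : WithTop ℕ∞) z) :
    ContDiff ℝ ((⊤ : ℕ∞) : WithTop ℕ∞) (fun x => f3 b s d (z x)) := by
  unfold f3
  refine Z03_mkz (fun i tr => ?_) (fun k => contDiff_const)
  split_ifs
  · refine ContDiff.neg (ContDiff.mul (Z03_Wt hz b) ?_)
    fin_cases tr
    · exact Z03_Sc (Z03_reg hz _)
    · exact Z03_Sc (Z03_reg hz _)
    · exact Z03_Qx (Z03_reg hz _)
    · exact Z03_Qx (Z03_reg hz _)
    · exact Z03_Qx (Z03_reg hz _)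
  · fun_prop
  · exact contDiff_const

theorem Z03q_pushed {r : E → ℝ} {z : E → Zs} (hr : ContDiff ℝ ((⊤ : ℕ∞) : WithTop ℕ∞) r)
    (hz : ContDiff ℝ ((⊤ : ℕ∞) : WithTop ℕ∞) z) (tr : Fin 5) :
    ContDiff ℝ ((⊤ : ℕ∞) : WithTop ℕ∞) (fun x => pushed (r x) (z x) tr) := by
  have hG : ∀ k, ContDiff ℝ ((⊤ : ℕ∞) : WithTop ℕ∞) (fun x =>
      GG (Qx (reg (z x) 4)) (Qx (reg (z x) 5)) (Qx (reg (z x) 6)) (Sg (reg (z x) 11)) k) :=
    fun k => Z03q_GG (Z03_Qx (Z03_reg hz _)) (Z03_Qx (Z03_reg hz _)) (Z03_Qx (Z03_reg hz _))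
      (Z03q_Sg (Z03_reg hz _)) k
  unfold pushed
  fin_cases tr
  · show ContDiff ℝ ((⊤ : ℕ∞) : WithTop ℕ∞) (fun x => 1 - Sc (reg (z x) 1))
    fun_prop
  · show ContDiff ℝ ((⊤ : ℕ∞) : WithTop ℕ∞)
      (fun x => (1 - Sc (reg (z x) 1)) * (1 - Sc (reg (z x) 3)))
    fun_prop
  · exact Z03_Qx ((hG 0).mul (contDiff_const.sub hr))
  · exact Z03_Qx ((hG 1).mul (contDiff_const.sub hr))
  · exact Z03_Qx ((hG 2).mul (contDiff_const.sub hr))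

theorem Z03q_f5 (b : Bool) (d : Fin 3) {r : E → ℝ} {z : E → Zs}
    (hr : ContDiff ℝ ((⊤ : ℕ∞) : WithTop ℕ∞) r)
    (hz : ContDiff ℝ ((⊤ : ℕ∞) : WithTop ℕ∞) z) :
    ContDiff ℝ ((⊤ : ℕ∞) : WithTop ℕ∞) (fun x => f5 b d (r x) (z x)) := by
  unfold f5
  refine Z03_mkz (fun i tr => ?_) (fun k => contDiff_const)
  split_ifs
  · exact (Z03_Wt hz b).mul (Z03q_pushed hr hz tr)
  · exact contDiff_const

theorem Z03q_slotf (cc : Clamp (5/4)) (cx : Clamp (mm + 1/2)) (ty : Ty) (p : Fin 3) {r : E → ℝ}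
    {z : E → Zs} (hr : ContDiff ℝ ((⊤ : ℕ∞) : WithTop ℕ∞) r)
    (hz : ContDiff ℝ ((⊤ : ℕ∞) : WithTop ℕ∞) z) (j : Fin 16) :
    ContDiff ℝ ((⊤ : ℕ∞) : WithTop ℕ∞) (fun x => slotf cc cx ty p (r x) j (z x)) := by
  unfold slotf
  fin_cases j
  · exact Z03_g0 ty p hz
  · exact Z03_f0 cc cx _ _ hz
  · exact Z03_f1 _ _ hz
  · exact Z03q_f2 _ hz
  · exact Z03q_f3 _ _ _ hz
  · exact Z03_f4 _ _ _ hz
  · show ContDiff ℝ ((⊤ : ℕ∞) : WithTop ℕ∞)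
      (fun x => f5 true (p + 1) (if ty = Ty.E then r x else 0) (z x))
    refine Z03q_f5 _ _ ?_ hz
    split_ifs
    · exact hr
    · exact contDiff_const
  · exact Z03_f6 hz
  · exact Z03_f0 cc cx _ _ hz
  · exact Z03_f1 _ _ hz
  · exact Z03q_f2 _ hz
  · exact Z03q_f3 _ _ _ hz
  · exact Z03_f4 _ _ _ hz
  · exact Z03q_f5 (r := fun _ => 0) _ _ contDiff_const hz
  · exact Z03_f6 hz
  · exact Z03_g1 hz

end Z03q

/-- TARGET -/
theorem YY_smooth (cc : Clamp (5/4)) (cx : Clamp (mm + 1/2)) (rh : Rho) :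
    (∀ k, ContDiff ℝ ((⊤ : ℕ∞) : WithTop ℕ∞) (YY cc cx rh k)) ∧
    ∀ k z y, YY cc cx rh k (z, y + LL) = YY cc cx rh k (z, y) := by
  constructor
  · intro k
    unfold YY
    by_cases h : k.1 < 96
    · simp only [h, dif_pos]
      exact (Z03q_slotf cc cx _ _ (rh.smooth.comp contDiff_snd) contDiff_fst _).prodMk
        contDiff_const
    · simp only [h, dif_neg, not_false_eq_true]
      refine contDiff_const.prodMk ?_
      unfold psi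
      exact ((Real.contDiff_sin.of_le le_top).comp
        ((contDiff_const.mul contDiff_snd).div_const _)).pow 2
  · intro k z y
    unfold YY
    simp only []
    rw [rh.per]
    have hL : LL ≠ 0 := by unfold LL; positivity
    have hp : psi (y + LL) = psi y := by
      unfold psi
      have : Real.pi * (y + LL) / LL = Real.pi * y / LL + Real.pi := by
        field_simp
      rw [this, Real.sin_add_pi]
      ring
    rw [hp]

end Pool.Agent.Y203.QC
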